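import Pool.Agent.H23UN.Main

/-!
# Condition (2) of Bloch and Beilinson: zero-cycles and undetected cycles
-/

set_option autoImplicit false
set_option linter.unusedSectionVars false

open CategoryTheory MonoidalCategory Module Filter
open Pool.Agent.Y112.SR Pool.Agent.Y112.KD Pool.Agent.N64.AF Pool.Agent.H23NC Pool.Agent.H23OB
open Pool.Agent.H23CT

namespace Pool.Agent.H23UN

universe v u w t

variable {C : Type u} [Category.{v} C] [Preadditive C] [MonoidalCategory C]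
  [MonoidalPreadditive C] [SymmetricCategory C] [Linear ℚ C] [MonoidalLinear ℚ C]
  {K : Type w} [Field K] [Algebra ℚ K] {R : SuperRealisation C K} {G : Cycles R}
  {dim : C → ℕ} {res : ∀ X Z : C, Set (X ⟶ Z)} {ι : Type t} {D : ι → Curve C}

/-- The zero-cycles in the spaces of the filtration which should vanish. -/
def TopZero (F : ∀ X : C, ℤ → ℕ → Submodule ℚ (𝟙_ C ⟶ X)) (dim : C → ℕ) (X : C) (j : ℕ)
    (x : 𝟙_ C ⟶ X) : Prop := dim X = j ∧ x ∈ F X j (j + 1)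

/-- The undetected cycles in the spaces of the filtration which should vanish. -/
def TopUnd (F : ∀ X : C, ℤ → ℕ → Submodule ℚ (𝟙_ C ⟶ X)) (G : Cycles R) (dim : C → ℕ)
    (res : ∀ X Z : C, Set (X ⟶ Z)) (X : C) (j : ℕ) (x : 𝟙_ C ⟶ X) : Prop :=
  x ∈ und G dim res X j ∧ x ∈ F X j (j + 1)

variable {F : ∀ X : C, ℤ → ℕ → Submodule ℚ (𝟙_ C ⟶ X)}

lemma le_deg (hF : G.IsBBMod (fun _ => ⊤) F) (X : C) (j : ℤ) (ν : ℕ) :
    F X j ν ≤ G.deg (𝟙_ C) X j := by
  induction ν with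
  | zero => rw [hF.zero]
  | succ ν ih => exact (hF.anti X j ν).trans ih

/-- The spaces `F^(j+1) CH^j(X)` consist of undetected classes if they vanish for the varieties of
dimension `j`. -/
lemma mem_und (hF : G.IsBBMod (fun _ => ⊤) F) (hG : Restr G dim res) {j : ℕ}
    (h : ∀ Z : C, dim Z = j → F Z j (j + 1) = ⊥) {X : C} {x : 𝟙_ C ⟶ X} (hx : x ∈ F X j (j + 1)) :
    x ∈ und G dim res X j := by
  refine ⟨le_deg hF X j (j + 1) hx, fun Z r hZ hr => ?_⟩
  have h1 := hF.corr X Z j 0 (j + 1) x r hx (hG.deg X Z r hr)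
  rw [add_zero, h Z hZ, Submodule.mem_bot] at h1
  exact h1

/-- **One codimension.** -/
theorem codim_iff (hF : G.IsBBMod (fun _ => ⊤) F) (hG : Restr G dim res) (j : ℕ) :
    (∀ X : C, F X j (j + 1) = ⊥) ↔ (∀ X : C, dim X = j → F X j (j + 1) = ⊥) ∧
      ∀ X : C, und G dim res X j ⊓ F X j (j + 1) = ⊥ := by
  constructor
  · exact fun h => ⟨fun X _ => h X, fun X => by rw [h X, inf_bot_eq]⟩
  · rintro ⟨h0, h1⟩ X
    rw [← h1 X]
    exact (inf_eq_right.2 fun x hx => mem_und hF hG h0 hx).symm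

/-- **Zero-cycles and undetected cycles.** -/
theorem isBB_iff_zero_und (hF : G.IsBBMod (fun _ => ⊤) F) (hG : Restr G dim res) :
    G.IsBB F ↔ (∀ X j x, TopZero F dim X j x → x = 0) ∧
      ∀ X j x, TopUnd F G dim res X j x → x = 0 := by
  constructor
  · intro h
    exact ⟨fun X j x hx => eq_zero_of_isBB h hx.2, fun X j x hx => eq_zero_of_isBB h hx.2⟩
  · rintro ⟨h0, h1⟩
    refine isBB_of hF fun X j x hx => h1 X j x ⟨⟨le_deg hF X j (j + 1) hx, ?_⟩, hx⟩
    intro Z r hZ hr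
    refine h0 Z j _ ⟨hZ, ?_⟩
    have := hF.corr X Z j 0 (j + 1) x r hx (hG.deg X Z r hr)
    rwa [add_zero] at this

lemma closed_topZero (hF : G.IsBBMod (fun _ => ⊤) F) {D : Curve C} (hD : D.Laws G)
    (hdim : ∀ X : C, dim (X ⊗ D.E) = dim X + 1) : D.Closed (TopZero F dim) := by
  intro X j x hx p hp q hq
  exact ⟨by rw [hdim, hx.1], closed_inTop hF hD X j x hx.2 p hp q hq⟩

lemma closed_topUnd (hF : G.IsBBMod (fun _ => ⊤) F) (hG : Restr G dim res) {D : Curve C}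
    (hD : D.Laws G) : D.Closed (TopUnd F G dim res) := by
  intro X j x hx p hp q hq
  exact ⟨closed_und hG hD X j x hx.1 p hp q hq, closed_inTop hF hD X j x hx.2 p hp q hq⟩

lemma thin_of_zero {O : ∀ X : C, ℕ → (𝟙_ C ⟶ X) → Prop} (h : ∀ X j x, O X j x → x = 0) :
    ∃ᶠ j : ℕ in atTop, ∃ m, Thin D O (m + 1) (j + (m + 1)) := by
  refine Filter.Frequently.of_forall fun j => ⟨0, fun L _ X f hf => ?_⟩
  refine (Set.countable_singleton (0 : 𝟙_ C ⟶ X)).mono ?_
  rintro _ ⟨z, hz, rfl⟩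
  exact h _ _ _ (hf z hz)

/-- **Thin families of zero-cycles and of undetected cycles.** -/
theorem isBB_iff_zero_und_thin (hF : G.IsBBMod (fun _ => ⊤) F) (hG : Restr G dim res)
    (hD : ∀ i, (D i).Laws G) (hdim : ∀ (i : ι) (X : C), dim (X ⊗ (D i).E) = dim X + 1)
    (hB : ∀ i, (D i).Baire) (hS : Separated D) :
    G.IsBB F ↔ (∃ᶠ d : ℕ in atTop, ∃ m, Thin D (TopZero F dim) (m + 1) (d + (m + 1))) ∧
      ∃ᶠ j : ℕ in atTop, ∃ m, Thin D (TopUnd F G dim res) (m + 1) (j + (m + 1)) := by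
  rw [isBB_iff_zero_und hF hG]
  constructor
  · rintro ⟨h0, h1⟩
    exact ⟨thin_of_zero h0, thin_of_zero h1⟩
  · rintro ⟨h0, h1⟩
    exact ⟨eq_zero_of_thin hD hB hS (fun i => closed_topZero hF (hD i) (hdim i)) h0,
      eq_zero_of_thin hD hB hS (fun i => closed_topUnd hF hG (hD i)) h1⟩

/-- **Zero-cycles and undetected cycles which come from one curve.** -/
theorem isBB_iff_zero_und_imgs (hF : G.IsBBMod (fun _ => ⊤) F) (hG : Restr G dim res)
    (hD : ∀ i, (D i).Laws G) (hdim : ∀ (i : ι) (X : C), dim (X ⊗ (D i).E) = dim X + 1)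
    (s : Finset ι) :
    G.IsBB F ↔ (∀ X j x, TopZero F dim X j x → (∀ i ∈ s, x ∈ (D i).img X) → x = 0) ∧
      ∀ X j x, TopUnd F G dim res X j x → (∀ i ∈ s, x ∈ (D i).img X) → x = 0 := by
  rw [isBB_iff_zero_und hF hG]
  constructor
  · rintro ⟨h0, h1⟩
    exact ⟨fun X j x hx _ => h0 X j x hx, fun X j x hx _ => h1 X j x hx⟩
  · rintro ⟨h0, h1⟩
    exact ⟨Curve.eq_zero_of_imgs hD (fun i => closed_topZero hF (hD i) (hdim i)) s h0,
      Curve.eq_zero_of_imgs hD (fun i => closed_topUnd hF hG (hD i)) s h1⟩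

end Pool.Agent.H23UN
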