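import Pool.Agent.H23CT.Thin

/-!
# Restrictions to subvarieties, and undetected cycles
-/

set_option autoImplicit false
set_option linter.unusedSectionVars false

open CategoryTheory MonoidalCategory Module Filter
open Pool.Agent.Y112.SR Pool.Agent.Y112.KD Pool.Agent.N64.AF Pool.Agent.H23NC Pool.Agent.H23OB
open Pool.Agent.H23CT

namespace Pool.Agent.H23UN

universe v u w t

variable {C : Type u} [Category.{v} C] [Preadditive C] [MonoidalCategory C]
  [SymmetricCategory C] [Linear ℚ C] {K : Type w} [Field K] {R : SuperRealisation C K}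

/-- The known properties of the restrictions: `dim` is the dimension, `CH^j(X) = 0` if `j > dim X`, and
`res X Z` is the set of the restrictions `CH(X) → CH(Z)`, where `Z` is a resolution of a subvariety `T`
of `X`. If `j + c` is the dimension of `Y` then a correspondence of degree `c` from `X` to `Y` is a
combination of subvarieties of dimension `j` of `X × Y`; if `j ≤ dim X` then by resolution of
singularities it is a combination of correspondences which factor through the restrictions to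
subvarieties of `X` of dimension `j` (through the image in `X` or, if the image has a smaller
dimension, through a subvariety of dimension `j` which contains it). -/
structure Restr (G : Cycles R) (dim : C → ℕ) (res : ∀ X Z : C, Set (X ⟶ Z)) : Prop where
  comp : ∀ (X Y Z : C) (c d : ℤ) (f : X ⟶ Y) (g : Y ⟶ Z), f ∈ G.deg X Y c → g ∈ G.deg Y Z d →
    f ≫ g ∈ G.deg X Z (c + d)
  deg : ∀ (X Z : C) (f : X ⟶ Z), f ∈ res X Z → f ∈ G.deg X Z 0
  top : ∀ (X : C) (j : ℕ), dim X < j → ∀ x ∈ G.deg (𝟙_ C) X j, x = 0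
  factor : ∀ (X Y : C) (j : ℕ) (c : ℤ) (f : X ⟶ Y), j ≤ dim X → f ∈ G.deg X Y c →
    (dim Y : ℤ) = j + c →
    f ∈ Submodule.span ℚ {h | ∃ (Z : C) (r : X ⟶ Z) (g : Z ⟶ Y), dim Z = j ∧ r ∈ res X Z ∧
      g ∈ G.deg Z Y c ∧ h = r ≫ g}

/-- The undetected classes: the classes in `CH^j(X)` whose restrictions to all subvarieties of
dimension `j` of `X` vanish. -/
def und (G : Cycles R) (dim : C → ℕ) (res : ∀ X Z : C, Set (X ⟶ Z)) (X : C) (j : ℕ) :
    Submodule ℚ (𝟙_ C ⟶ X) where
  carrier := {x | x ∈ G.deg (𝟙_ C) X j ∧ ∀ (Z : C) (r : X ⟶ Z), dim Z = j → r ∈ res X Z →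
    x ≫ r = 0}
  zero_mem' := ⟨Submodule.zero_mem _, fun _ _ _ _ => Limits.zero_comp⟩
  add_mem' {a b} ha hb := ⟨Submodule.add_mem _ ha.1 hb.1, fun Z r hZ hr => by
    rw [Preadditive.add_comp, ha.2 Z r hZ hr, hb.2 Z r hZ hr, add_zero]⟩
  smul_mem' c a ha := ⟨Submodule.smul_mem _ c ha.1, fun Z r hZ hr => by
    rw [Linear.smul_comp, ha.2 Z r hZ hr, smul_zero]⟩

variable {G : Cycles R} {dim : C → ℕ} {res : ∀ X Z : C, Set (X ⟶ Z)}

lemma und_factor (hG : Restr G dim res) {X Y : C} {j : ℕ} {c : ℤ} {x : 𝟙_ C ⟶ X} {f : X ⟶ Y}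
    (hx : x ∈ und G dim res X j) (hf : f ∈ G.deg X Y c) (hY : (dim Y : ℤ) = j + c) :
    x ≫ f = 0 := by
  rcases lt_or_ge (dim X) j with hj | hj
  · rw [hG.top X j hj x hx.1, Limits.zero_comp]
  have h := hG.factor X Y j c f hj hf hY
  clear hf
  induction h using Submodule.span_induction with
  | mem w h =>
    obtain ⟨Z, r, g, hZ, hr, _, rfl⟩ := h
    rw [← Category.assoc, hx.2 Z r hZ hr, Limits.zero_comp]
  | zero => rw [Limits.comp_zero]
  | add a b _ _ ha hb => rw [Preadditive.comp_add, ha, hb, add_zero]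
  | smul c a _ ha => rw [Linear.comp_smul, ha, smul_zero]

/-- The undetected classes are stable under correspondences. -/
lemma und_comp (hG : Restr G dim res) {X Y : C} {i j : ℕ} {c : ℤ} {x : 𝟙_ C ⟶ X} {f : X ⟶ Y}
    (hx : x ∈ und G dim res X j) (hf : f ∈ G.deg X Y c) (hi : (i : ℤ) = j + c) :
    x ≫ f ∈ und G dim res Y i := by
  refine ⟨?_, fun Z r hZ hr => ?_⟩
  · rw [hi]
    exact hG.comp _ _ _ _ _ _ _ hx.1 hf
  · rw [Category.assoc]
    refine und_factor hG hx (c := c) ?_ (by rw [hZ, hi])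
    simpa using hG.comp _ _ _ _ _ _ _ hf (hG.deg _ _ _ hr)

end Pool.Agent.H23UN
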