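import Pool.Agent.H23UN.Defs

/-!
# Nori's conjecture on the detection of cycles by restriction, up to countable sets
-/

set_option autoImplicit false
set_option linter.unusedSectionVars false

open CategoryTheory MonoidalCategory Module Filter
open Pool.Agent.Y112.SR Pool.Agent.Y112.KD Pool.Agent.N64.AF Pool.Agent.H23NC Pool.Agent.H23OB
open Pool.Agent.H23CT

namespace Pool.Agent.H23UN

universe v u w t

variable {C : Type u} [Category.{v} C] [Preadditive C] [MonoidalCategory C]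
  [MonoidalPreadditive C] [SymmetricCategory C] [Linear ℚ C] [MonoidalLinear ℚ C]
  {K : Type w} [Field K] [Algebra ℚ K] {R : SuperRealisation C K} {G : Cycles R}
  {dim : C → ℕ} {res : ∀ X Z : C, Set (X ⟶ Z)} {ι : Type t} {D : ι → Curve C}

/-- The undetected classes. -/
def InUnd (G : Cycles R) (dim : C → ℕ) (res : ∀ X Z : C, Set (X ⟶ Z)) (X : C) (j : ℕ)
    (x : 𝟙_ C ⟶ X) : Prop := x ∈ und G dim res X j

lemma closed_und (hG : Restr G dim res) {D : Curve C} (hD : D.Laws G) :
    D.Closed (InUnd G dim res) := by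
  intro X j x hx p hp q hq
  exact und_comp hG hx (Submodule.sub_mem _ (hD.pt_deg X p hp) (hD.pt_deg X q hq))
    (by push_cast; rfl)

lemma und_point (hG : Restr G dim res) {D : Curve C} (hD : D.Laws G) {X : C} {j : ℕ}
    {x : 𝟙_ C ⟶ X} (hx : x ∈ und G dim res X j) (hx0 : x ≠ 0) :
    ∃ (Y : C) (y : 𝟙_ C ⟶ Y), y ∈ und G dim res Y (j + 1) ∧ y ≠ 0 := by
  obtain ⟨o, ho⟩ := hD.nonempty
  refine ⟨X ⊗ D.E, x ≫ times X o, und_comp hG hx (hD.pt_deg X o ho) (by push_cast; rfl), ?_⟩
  intro h0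
  apply hx0
  have h2 : times X o ≫ X ◁ D.trans D.fund ≫ (ρ_ X).hom = 𝟙 X := by
    unfold times
    rw [Category.assoc, ← whiskerLeft_comp_assoc, hD.pt_fund o ho]
    simp
  have h3 := congrArg (fun y => y ≫ X ◁ D.trans D.fund ≫ (ρ_ X).hom) h0
  simp only [Category.assoc, h2, Category.comp_id, Limits.zero_comp] at h3
  exact h3

/-- Nori's conjecture in codimension `l` implies it in the codimensions `j ≤ l`. -/
theorem und_mono (hG : Restr G dim res) (hD : ∀ i, (D i).Laws G) (hS : Separated D) {l : ℕ}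
    (h : ∀ X, und G dim res X l = ⊥) (j : ℕ) (hj : j ≤ l) (X : C) : und G dim res X j = ⊥ := by
  rw [Submodule.eq_bot_iff]
  intro x hx
  by_contra hx0
  obtain ⟨i, _⟩ := exists_prod_ne_zero hD hS hx0
  obtain ⟨n, hn⟩ := Nat.exists_eq_add_of_le hj
  have h1 : ∀ n : ℕ, ∃ (Y : C) (y : 𝟙_ C ⟶ Y), y ∈ und G dim res Y (j + n) ∧ y ≠ 0 := by
    intro n
    induction n with
    | zero => exact ⟨X, x, hx, hx0⟩
    | succ n ih =>
      obtain ⟨Y, y, h2, h3⟩ := ih
      exact und_point hG (hD i) h2 h3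
  obtain ⟨Y, y, h2, h3⟩ := h1 n
  rw [← hn, h Y, Submodule.mem_bot] at h2
  exact h3 h2

lemma und_eq_bot_iff : (∀ (X : C) (j : ℕ), und G dim res X j = ⊥) ↔
    ∀ (X : C) (j : ℕ) (x : 𝟙_ C ⟶ X), InUnd G dim res X j x → x = 0 := by
  simp only [Submodule.eq_bot_iff]
  rfl

/-- **One variety.** -/
theorem und_of_ext (hG : Restr G dim res) (hD : ∀ i, (D i).Laws G) (hB : ∀ i, (D i).Baire)
    (hS : Separated D) (X : C) (j m : ℕ)
    (h : ∀ L : List ι, L.length = m + 1 → ∀ f : pw D L ⟶ ext D X L,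
      (∀ z ∈ diffs D L, z ≫ f ∈ und G dim res (ext D X L) (j + (m + 1))) →
        {y | ∃ z ∈ diffs D L, y = z ≫ f}.Countable) : und G dim res X j = ⊥ :=
  (Submodule.eq_bot_iff _).2 fun _ hx =>
    eq_zero_of_ext (O := InUnd G dim res) hD hB hS (fun i => closed_und hG (hD i)) h hx

/-- **Thin families suffice.** -/
theorem und_iff_thin (hG : Restr G dim res) (hD : ∀ i, (D i).Laws G) (hB : ∀ i, (D i).Baire)
    (hS : Separated D) : (∀ (X : C) (j : ℕ), und G dim res X j = ⊥) ↔
      ∃ᶠ j : ℕ in atTop, ∃ m, Thin D (InUnd G dim res) (m + 1) (j + (m + 1)) := by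
  rw [und_eq_bot_iff]
  constructor
  · intro h
    refine Filter.Frequently.of_forall fun j => ⟨0, fun L _ X f hf => ?_⟩
    refine (Set.countable_singleton (0 : 𝟙_ C ⟶ X)).mono ?_
    rintro _ ⟨z, hz, rfl⟩
    exact h _ _ _ (hf z hz)
  · exact eq_zero_of_thin hD hB hS (fun i => closed_und hG (hD i))

/-- **Countability suffices.** -/
theorem und_iff_countable (hG : Restr G dim res) (hD : ∀ i, (D i).Laws G)
    (hB : ∀ i, (D i).Baire) (hS : Separated D) :
    (∀ (X : C) (j : ℕ), und G dim res X j = ⊥) ↔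
      ∃ᶠ j : ℕ in atTop, ∀ X : C, (und G dim res X j : Set (𝟙_ C ⟶ X)).Countable := by
  constructor
  · intro h
    refine Filter.Frequently.of_forall fun j X => ?_
    rw [h X j]
    exact Set.countable_singleton _
  · intro h
    rw [und_eq_bot_iff]
    exact eq_zero_of_rigid hD hS (fun i => closed_und hG (hD i))
      (h.mono fun j hj => rigid_of_countable (O := InUnd G dim res) hD hB hj)

/-- **One curve suffices.** -/
theorem und_iff_imgs (hG : Restr G dim res) (hD : ∀ i, (D i).Laws G) (s : Finset ι) :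
    (∀ (X : C) (j : ℕ), und G dim res X j = ⊥) ↔
      ∀ (X : C) (j : ℕ), ∀ x ∈ und G dim res X j, (∀ i ∈ s, x ∈ (D i).img X) → x = 0 := by
  constructor
  · intro h X j x hx _
    rwa [h X j, Submodule.mem_bot] at hx
  · intro h
    rw [und_eq_bot_iff]
    exact Curve.eq_zero_of_imgs hD (fun i => closed_und hG (hD i)) s
      fun X j x hx hxs => h X j x hx hxs

end Pool.Agent.H23UN
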